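import Mathlib

set_option autoImplicit false

namespace Pool.Agent.Results.MP_6ad937_co.FewEndpoints

open Finset

/-- A family of pairwise disjoint bars: the bar of `v` is the closed horizontal segment
`[l v, r v] × {y v}` of positive length. -/
structure Bars (V : Type*) where
  l : V → ℝ
  r : V → ℝ
  y : V → ℝ
  pos : ∀ v, l v < r v
  disj : ∀ u v, u ≠ v →
    Disjoint (Set.Icc (l u) (r u) ×ˢ ({y u} : Set ℝ)) (Set.Icc (l v) (r v) ×ˢ ({y v} : Set ℝ))

/-- The bar of `v` as a subset of the plane. -/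
def Bars.bar {V : Type*} (B : Bars V) (v : V) : Set (ℝ × ℝ) :=
  Set.Icc (B.l v) (B.r v) ×ˢ {B.y v}

/-- The bars of `u` and `v` see each other through at most `k` other bars: there are `x₁ < x₂`
such that `[x₁, x₂]` lies in both projections and the closed rectangle between the two heights
over `[x₁, x₂]` meets at most `k` bars other than those of `u` and `v`. -/
def Bars.Sees {V : Type*} (B : Bars V) (k : ℕ) (u v : V) : Prop :=
  ∃ x₁ x₂ : ℝ, x₁ < x₂ ∧ Set.Icc x₁ x₂ ⊆ Set.Icc (B.l u) (B.r u) ∧
    Set.Icc x₁ x₂ ⊆ Set.Icc (B.l v) (B.r v) ∧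
    {w : V | w ≠ u ∧ w ≠ v ∧ (B.bar w ∩
      Set.Icc x₁ x₂ ×ˢ Set.Icc (min (B.y u) (B.y v)) (max (B.y u) (B.y v))).Nonempty}.encard ≤ k

/-- The bar `k`-visibility graph represented by the bars `B`. -/
def Bars.graph {V : Type*} (B : Bars V) (k : ℕ) : SimpleGraph V where
  Adj u v := u ≠ v ∧ B.Sees k u v
  symm := ⟨by
    rintro u v ⟨h, x₁, x₂, hx, hu, hv, hc⟩
    refine ⟨h.symm, x₁, x₂, hx, hv, hu, ?_⟩
    rw [min_comm, max_comm]
    convert hc using 3
    ext w
    constructor
    · rintro ⟨a, b, c⟩; exact ⟨b, a, c⟩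
    · rintro ⟨a, b, c⟩; exact ⟨b, a, c⟩⟩
  loopless := ⟨fun _ h => h.1 rfl⟩

/-- `w` has an endpoint strictly inside the projection of `v`. -/
def Bars.EndsIn {V : Type*} (B : Bars V) (w v : V) : Prop :=
  (B.l v < B.l w ∧ B.l w < B.r v) ∨ (B.l v < B.r w ∧ B.r w < B.r v)

lemma card_low {V : Type*} (A : Finset V) (f : V → ℝ) (hf : Set.InjOn f (A : Set V)) (k : ℕ) :
    (A.filter fun u => (A.filter fun w => f w < f u).card ≤ k).card ≤ k + 1 := by
  classical
  have hinj : Set.InjOn (fun u => (A.filter fun w => f w < f u).card)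
      ((A.filter fun u => (A.filter fun w => f w < f u).card ≤ k : Finset V) : Set V) := by
    have key : ∀ u ∈ A, ∀ u' ∈ A, f u < f u' →
        (A.filter fun w => f w < f u).card < (A.filter fun w => f w < f u').card := by
      intro u hu u' _ huu
      apply Finset.card_lt_card
      rw [Finset.ssubset_iff_of_subset]
      · exact ⟨u, by simp [hu, huu], by simp⟩
      · intro w hw
        simp only [Finset.mem_filter] at hw ⊢
        exact ⟨hw.1, hw.2.trans huu⟩
    intro u hu u' hu' he
    have hu1 := (Finset.mem_filter.mp (Finset.mem_coe.mp hu)).1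
    have hu2 := (Finset.mem_filter.mp (Finset.mem_coe.mp hu')).1
    rcases lt_trichotomy (f u) (f u') with h | h | h
    · exact absurd he (key u hu1 u' hu2 h).ne
    · exact hf hu1 hu2 h
    · exact absurd he (key u' hu2 u hu1 h).ne'
  calc (A.filter fun u => (A.filter fun w => f w < f u).card ≤ k).card
      = ((A.filter fun u => (A.filter fun w => f w < f u).card ≤ k).image
          (fun u => (A.filter fun w => f w < f u).card)).card :=
        (Finset.card_image_of_injOn hinj).symm
    _ ≤ (Finset.range (k + 1)).card := by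
        apply Finset.card_le_card
        intro n hn
        simp only [Finset.mem_image, Finset.mem_filter] at hn
        obtain ⟨u, ⟨_, h⟩, rfl⟩ := hn
        simpa using Nat.lt_succ_of_le h
    _ = k + 1 := Finset.card_range _

/-- `u` covers the projection of `v`. -/
def Bars.Full {V : Type*} (B : Bars V) (u v : V) : Prop := B.l u ≤ B.l v ∧ B.r v ≤ B.r u

lemma y_ne {V : Type*} (B : Bars V) {u v : V} (h : u ≠ v) {x : ℝ}
    (hu : x ∈ Set.Icc (B.l u) (B.r u)) (hv : x ∈ Set.Icc (B.l v) (B.r v)) : B.y u ≠ B.y v := by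
  intro he
  have := B.disj u v h
  rw [Set.disjoint_left] at this
  exact this (a := (x, B.y u)) ⟨hu, rfl⟩ ⟨hv, he⟩

lemma full_of_sees {V : Type*} (B : Bars V) {k : ℕ} {u v : V} (h : B.Sees k v u)
    (hn : ¬ B.EndsIn u v) : B.Full u v := by
  obtain ⟨x₁, x₂, hx, hv, hu, -⟩ := h
  have h1 := hv (Set.left_mem_Icc.mpr hx.le)
  have h2 := hv (Set.right_mem_Icc.mpr hx.le)
  have h3 := hu (Set.left_mem_Icc.mpr hx.le)
  have h4 := hu (Set.right_mem_Icc.mpr hx.le)
  simp only [Set.mem_Icc] at h1 h2 h3 h4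
  unfold Bars.EndsIn at hn
  push Not at hn
  constructor
  · by_contra hc
    push Not at hc
    have := hn.1 hc
    linarith [h3.1, h2.2]
  · by_contra hc
    push Not at hc
    by_cases h5 : B.l v < B.r u
    · have := hn.2 h5
      linarith
    · push Not at h5
      linarith [h4.2, h1.1]

lemma few_between {V : Type*} [Finite V] (B : Bars V) {k : ℕ} {u v : V} (h : B.Sees k v u)
    (U : Finset V) (P : V → Prop) [DecidablePred P]
    (hP : ∀ w ∈ U, P w → w ≠ u ∧ w ≠ v ∧ B.Full w v ∧ min (B.y v) (B.y u) ≤ B.y w ∧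
      B.y w ≤ max (B.y v) (B.y u)) :
    (U.filter P).card ≤ k := by
  classical
  obtain ⟨x₁, x₂, hx, hv, hu, hc⟩ := h
  have hsub : ((U.filter P : Finset V) : Set V) ⊆ {w : V | w ≠ v ∧ w ≠ u ∧ (B.bar w ∩
      Set.Icc x₁ x₂ ×ˢ Set.Icc (min (B.y v) (B.y u)) (max (B.y v) (B.y u))).Nonempty} := by
    intro w hw
    have hw' := Finset.mem_filter.mp (Finset.mem_coe.mp hw)
    obtain ⟨h1, h2, h3, h4, h5⟩ := hP w hw'.1 hw'.2
    refine ⟨h2, h1, (x₁, B.y w), ⟨⟨?_, rfl⟩, ⟨Set.left_mem_Icc.mpr hx.le, h4, h5⟩⟩⟩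
    have h6 := hv (Set.left_mem_Icc.mpr hx.le)
    exact ⟨h3.1.trans h6.1, h6.2.trans h3.2⟩
  have h7 := (Set.encard_le_encard hsub).trans hc
  rw [Set.encard_coe_eq_coe_finsetCard] at h7
  exact_mod_cast h7

lemma degree_bound {V : Type*} [Finite V] (B : Bars V) (k t : ℕ) (U : Finset V) (v : V)
    (hI : {w : V | w ∈ U ∧ w ≠ v ∧ B.EndsIn w v}.encard ≤ t) :
    {u : V | u ∈ U ∧ (B.graph k).Adj v u}.encard ≤ 2 * (k + 1) + t := by
  classical
  set A : Finset V := U.filter fun w => w ≠ v ∧ B.Full w v ∧ B.y v < B.y w with hA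
  set C : Finset V := U.filter fun w => w ≠ v ∧ B.Full w v ∧ B.y w < B.y v with hC
  have full_mem : ∀ w, B.Full w v → B.l v ∈ Set.Icc (B.l w) (B.r w) := fun w hw =>
    ⟨hw.1, (B.pos v).le.trans hw.2⟩
  have injy : ∀ S : Finset V, (∀ w ∈ S, B.Full w v) → Set.InjOn B.y (S : Set V) := by
    intro S hS a ha b hb he
    by_contra hne
    exact y_ne B hne (full_mem a (hS a ha)) (full_mem b (hS b hb)) he
  have hAf : ∀ w ∈ A, B.Full w v := fun w hw => (Finset.mem_filter.mp hw).2.2.1
  have hCf : ∀ w ∈ C, B.Full w v := fun w hw => (Finset.mem_filter.mp hw).2.2.1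
  have cA := card_low A B.y (injy A hAf) k
  have cC := card_low C (fun w => - B.y w) (fun a ha b hb he => injy C hCf ha hb (neg_injective he)) k
  set A' := A.filter fun u => (A.filter fun w => B.y w < B.y u).card ≤ k
  set C' := C.filter fun u => (C.filter fun w => - B.y w < - B.y u).card ≤ k
  have hsub : {u : V | u ∈ U ∧ (B.graph k).Adj v u} ⊆
      ((A' : Set V) ∪ (C' : Set V)) ∪ {w : V | w ∈ U ∧ w ≠ v ∧ B.EndsIn w v} := by
    rintro u ⟨huU, hne, hs⟩
    by_cases hE : B.EndsIn u v
    · exact Or.inr ⟨huU, hne.symm, hE⟩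
    left
    have hF := full_of_sees B hs hE
    have hy : B.y u ≠ B.y v := y_ne B hne.symm (full_mem u hF) ⟨le_rfl, (B.pos v).le⟩
    rcases lt_or_gt_of_ne hy with h | h
    · right
      have huC : u ∈ C := Finset.mem_filter.mpr ⟨huU, hne.symm, hF, h⟩
      refine Finset.mem_coe.mpr (Finset.mem_filter.mpr ⟨huC, ?_⟩)
      apply few_between B hs
      intro w hw hwu
      have hw' := (Finset.mem_filter.mp hw).2
      have h8 : B.y u < B.y w := by simpa using hwu
      refine ⟨fun h9 => ?_, hw'.1, hw'.2.1, ?_, ?_⟩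
      · rw [h9] at h8; exact lt_irrefl _ h8
      · exact (min_le_right _ _).trans h8.le
      · exact hw'.2.2.le.trans (le_max_left _ _)
    · left
      have huA : u ∈ A := Finset.mem_filter.mpr ⟨huU, hne.symm, hF, h⟩
      refine Finset.mem_coe.mpr (Finset.mem_filter.mpr ⟨huA, ?_⟩)
      apply few_between B hs
      intro w hw hwu
      have hw' := (Finset.mem_filter.mp hw).2
      refine ⟨fun h9 => ?_, hw'.1, hw'.2.1, ?_, ?_⟩
      · rw [h9] at hwu; exact lt_irrefl _ hwu
      · exact (min_le_left _ _).trans hw'.2.2.le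
      · exact hwu.le.trans (le_max_right _ _)
  calc {u : V | u ∈ U ∧ (B.graph k).Adj v u}.encard
      ≤ (((A' : Set V) ∪ (C' : Set V)) ∪ {w : V | w ∈ U ∧ w ≠ v ∧ B.EndsIn w v}).encard :=
        Set.encard_le_encard hsub
    _ ≤ ((A' : Set V) ∪ (C' : Set V)).encard + {w : V | w ∈ U ∧ w ≠ v ∧ B.EndsIn w v}.encard :=
        Set.encard_union_le _ _
    _ ≤ ((A' : Set V).encard + (C' : Set V).encard) + t :=
        add_le_add (Set.encard_union_le _ _) hI
    _ ≤ 2 * (k + 1) + t := by
        rw [Set.encard_coe_eq_coe_finsetCard, Set.encard_coe_eq_coe_finsetCard]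
        have : A'.card + C'.card ≤ 2 * (k + 1) := by omega
        have h2 : ((A'.card : ℕ∞) + (C'.card : ℕ∞)) ≤ 2 * (k + 1) := by exact_mod_cast this
        exact add_le_add h2 le_rfl

/-- A graph in which every nonempty set `U` of vertices has a member with at most `d` neighbours
in `U` is `(d+1)`-colourable. -/
lemma colorable_of_degenerate {V : Type*} [Finite V] (G : SimpleGraph V) (d : ℕ)
    (h : ∀ U : Finset V, U.Nonempty → ∃ v ∈ U, {u : V | u ∈ U ∧ G.Adj v u}.encard ≤ d) :
    G.Colorable (d + 1) := by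
  classical
  have key : ∀ n : ℕ, ∀ U : Finset V, U.card = n →
      ∃ c : V → Fin (d + 1), ∀ a ∈ U, ∀ b ∈ U, G.Adj a b → c a ≠ c b := by
    intro n
    induction n with
    | zero =>
      intro U hU
      rw [Finset.card_eq_zero] at hU
      subst hU
      exact ⟨fun _ => 0, by simp⟩
    | succ n ih =>
      intro U hU
      obtain ⟨v, hv, hd⟩ := h U (Finset.card_pos.mp (by omega))
      obtain ⟨c, hc⟩ := ih (U.erase v) (by rw [Finset.card_erase_of_mem hv]; omega)
      have hN : (U.filter fun u => G.Adj v u).card ≤ d := by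
        have : ((U.filter fun u => G.Adj v u : Finset V) : Set V) =
            {u : V | u ∈ U ∧ G.Adj v u} := by ext; simp
        rw [← this, Set.encard_coe_eq_coe_finsetCard] at hd
        exact_mod_cast hd
      obtain ⟨x, hx⟩ : ∃ x : Fin (d + 1), x ∉ (U.filter fun u => G.Adj v u).image c := by
        by_contra hcon
        push Not at hcon
        have h1 : (Finset.univ : Finset (Fin (d + 1))) ⊆
            (U.filter fun u => G.Adj v u).image c := fun x _ => hcon x
        have h2 := Finset.card_le_card h1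
        have h3 := (Finset.card_image_le (s := U.filter fun u => G.Adj v u) (f := c))
        simp only [Finset.card_univ, Fintype.card_fin] at h2
        omega
      refine ⟨Function.update c v x, ?_⟩
      intro a ha b hb hab
      by_cases h1 : a = v
      · subst h1
        have h2 : b ≠ a := fun h => G.loopless.irrefl _ (h ▸ hab)
        rw [Function.update_self, Function.update_of_ne h2]
        intro h3
        exact hx (Finset.mem_image.mpr ⟨b, Finset.mem_filter.mpr ⟨hb, hab⟩, h3.symm⟩)
      · by_cases h2 : b = v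
        · subst h2
          rw [Function.update_self, Function.update_of_ne h1]
          intro h3
          exact hx (Finset.mem_image.mpr ⟨a, Finset.mem_filter.mpr ⟨ha, hab.symm⟩, h3⟩)
        · rw [Function.update_of_ne h1, Function.update_of_ne h2]
          exact hc a (Finset.mem_erase.mpr ⟨h1, ha⟩) b (Finset.mem_erase.mpr ⟨h2, hb⟩) hab
  have := Fintype.ofFinite V
  obtain ⟨c, hc⟩ := key _ Finset.univ rfl
  exact ⟨SimpleGraph.Coloring.mk c fun {a b} hab => hc a (Finset.mem_univ _) b (Finset.mem_univ _) hab⟩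

/-- If every nonempty set `U` of bars has a member `v` such that at most `t` other bars of `U` have
an endpoint strictly inside the projection of `v`, then the bar `k`-visibility graph is
`(2k + 3 + t)`-colourable. -/
theorem result {V : Type*} [Finite V] (B : Bars V) (k t : ℕ)
    (h : ∀ U : Set V, U.Nonempty → ∃ v ∈ U, {w : V | w ∈ U ∧ w ≠ v ∧ B.EndsIn w v}.encard ≤ t) :
    (B.graph k).Colorable (2 * k + 3 + t) := by
  have h1 := colorable_of_degenerate (B.graph k) (2 * (k + 1) + t) (fun U hU => by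
    obtain ⟨v, hv, hd⟩ := h (U : Set V) (by exact_mod_cast hU)
    refine ⟨v, hv, ?_⟩
    have := degree_bound B k t U v (by simpa using hd)
    exact_mod_cast this)
  have : 2 * (k + 1) + t + 1 = 2 * k + 3 + t := by ring
  rwa [this] at h1

end Pool.Agent.Results.MP_6ad937_co.FewEndpoints
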