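import Mathlib
import Pool.Agent.Helper41.Bar9.Geo
import Pool.Agent.Helper41.Bar9.Closed

set_option autoImplicit false

namespace Pool.Agent.Results.MP_6ad937_co.NineWide

/-- A family of pairwise disjoint bars: the bar of `v` is the closed horizontal segment
`[l v, r v] × {y v}` of positive length. -/
structure Bars (V : Type*) where
  l : V → ℝ
  r : V → ℝ
  y : V → ℝ
  pos : ∀ v, l v < r v
  disj : ∀ u v, u ≠ v →
    Disjoint (Set.Icc (l u) (r u) ×ˢ ({y u} : Set ℝ)) (Set.Icc (l v) (r v) ×ˢ ({y v} : Set ℝ))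

/-- The bar of `v` as a subset of the plane. -/
def Bars.bar {V : Type*} (B : Bars V) (v : V) : Set (ℝ × ℝ) :=
  Set.Icc (B.l v) (B.r v) ×ˢ {B.y v}

/-- The bars of `u` and `v` see each other through at most `k` other bars: there are `x₁ < x₂`
such that `[x₁, x₂]` lies in both projections and the closed rectangle between the two heights
over `[x₁, x₂]` meets at most `k` bars other than those of `u` and `v`. -/
def Bars.Sees {V : Type*} (B : Bars V) (k : ℕ) (u v : V) : Prop :=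
  ∃ x₁ x₂ : ℝ, x₁ < x₂ ∧ Set.Icc x₁ x₂ ⊆ Set.Icc (B.l u) (B.r u) ∧
    Set.Icc x₁ x₂ ⊆ Set.Icc (B.l v) (B.r v) ∧
    {w : V | w ≠ u ∧ w ≠ v ∧ (B.bar w ∩
      Set.Icc x₁ x₂ ×ˢ Set.Icc (min (B.y u) (B.y v)) (max (B.y u) (B.y v))).Nonempty}.encard ≤ k

/-- The bar `k`-visibility graph represented by the bars `B`. -/
def Bars.graph {V : Type*} (B : Bars V) (k : ℕ) : SimpleGraph V where
  Adj u v := u ≠ v ∧ B.Sees k u v
  symm := ⟨by
    rintro u v ⟨h, x₁, x₂, hx, hu, hv, hc⟩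
    refine ⟨h.symm, x₁, x₂, hx, hv, hu, ?_⟩
    rw [min_comm, max_comm]
    convert hc using 3
    ext w
    constructor
    · rintro ⟨a, b, c⟩; exact ⟨b, a, c⟩
    · rintro ⟨a, b, c⟩; exact ⟨b, a, c⟩⟩
  loopless := ⟨fun _ h => h.1 rfl⟩

/-- If every vertical line meets the relative interiors of at most nine of the bars, then the bar
1-visibility graph is 8-colourable. -/
theorem result {V : Type*} [Finite V] (B : Bars V)
    (h : ∀ x : ℝ, {v : V | B.l v < x ∧ x < B.r v}.encard ≤ 9) : (B.graph 1).Colorable 8 := by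
  obtain ⟨E, c, hc8, hc⟩ := Pool.Agent.Helper41.Bar9.colour_bars
    Pool.Agent.Helper41.Bar9.closed B.l B.r B.y B.pos h
  refine ⟨SimpleGraph.Coloring.mk (fun v => (⟨c v, hc8 v⟩ : Fin 8)) ?_⟩
  rintro u v ⟨huv, x₁, x₂, hx, hu, hv, hcard⟩ heq
  obtain ⟨x, hxI, hxE⟩ := (Set.Ioo_infinite hx).exists_notMem_finset E
  have hu1 := hu (Set.left_mem_Icc.mpr hx.le)
  have hu2 := hu (Set.right_mem_Icc.mpr hx.le)
  have hv1 := hv (Set.left_mem_Icc.mpr hx.le)
  have hv2 := hv (Set.right_mem_Icc.mpr hx.le)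
  refine hc u v x huv hxE (lt_of_le_of_lt hu1.1 hxI.1) (lt_of_lt_of_le hxI.2 hu2.2)
    (lt_of_le_of_lt hv1.1 hxI.1) (lt_of_lt_of_le hxI.2 hv2.2) ?_ (by simpa using heq)
  refine (Set.encard_le_encard ?_).trans (by exact_mod_cast hcard)
  rintro w ⟨h1, h2, h3, h4, h5, h6⟩
  exact ⟨h1, h2, (x, B.y w), ⟨⟨h3.le, h4.le⟩, rfl⟩, ⟨⟨hxI.1.le, hxI.2.le⟩, h5, h6⟩⟩

end Pool.Agent.Results.MP_6ad937_co.NineWide
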